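import Pool.Agent.Y462.EI.Stm
import Pool.Agent.Y462.SS.St

/-! Project EI, job W: groups with a normal subgroup of finitely supported elements of a wreath
product. -/

set_option autoImplicit false

namespace Pool.Agent.Y312.EI

open Pool.Agent.Y462.SS (Wr Closed)
open Pool.Agent.Y462.EI (Fin1)
open Pool.Agent.Y110.FJ (ClosedE)

theorem t_w (hcrit : Pool.Agent.Y110.FJ.S_CRIT) (hWR : Pool.Agent.Y462.SS.S_WR) :
    Pool.Agent.Y462.EI.S_W := by
  intro C hC G I A _ _ N _ h hN hinj hA hQ
  classical
  refine hcrit C hC G N hQ fun g S hS hSN => ?_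
  set S' : Set G := S ∪ (fun x => g * x * g⁻¹) '' S with hS'
  have hS'fin : S'.Finite := hS.union (hS.image _)
  have hS'N : S' ⊆ N := by
    rintro x (hx | ⟨y, hy, rfl⟩)
    · exact hSN hx
    · exact Subgroup.Normal.conj_mem inferInstance y (hSN hy) g
  have hclN : Subgroup.closure S' ≤ N := (Subgroup.closure_le N).2 hS'N
  obtain ⟨J0, hJ0⟩ : ∃ J0 : Set I, J0.Finite ∧ ∀ x ∈ S', ∀ i, (h x).s i ≠ 1 → i ∈ J0 := by
    refine ⟨⋃ x ∈ S', {i | (h x).s i ≠ 1}, hS'fin.biUnion fun x hx => (hN x (hS'N hx)).2, ?_⟩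
    intro x hx i hi
    exact Set.mem_biUnion hx hi
  obtain ⟨hJ0f, hJ0s⟩ := hJ0
  have hsupp : ∀ n ∈ Subgroup.closure S', ∀ i, i ∉ J0 → (h n).s i = 1 := by
    intro n hn
    refine Subgroup.closure_induction (p := fun n _ => ∀ i, i ∉ J0 → (h n).s i = 1)
      ?_ ?_ ?_ ?_ hn
    · intro x hx i hi
      by_contra hc
      exact hi (hJ0s x hx i hc)
    · intro i _
      rw [map_one]
      rfl
    · intro a b ha hb iha ihb i hi
      rw [map_mul, Wr.mul_s, (hN b (hclN hb)).1, Equiv.Perm.one_apply, iha i hi, ihb i hi, one_mul]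
    · intro a ha iha i hi
      rw [map_inv, Wr.inv_s, (hN a (hclN ha)).1, inv_one, Equiv.Perm.one_apply, iha i hi, inv_one]
  obtain ⟨J, hJ⟩ : ∃ J : Set I, J = J0 ∪ (h g).p '' J0 := ⟨_, rfl⟩
  have hJfin : J.Finite := by
    rw [hJ]
    exact hJ0f.union (hJ0f.image _)
  have hJF : Finite J := hJfin
  have hJ0J : J0 ⊆ J := by
    rw [hJ]
    exact Set.subset_union_left
  have hpJ : ∀ j ∈ J0, (h g).p j ∈ J := by
    intro j hj
    rw [hJ]
    exact Or.inr ⟨j, hj, rfl⟩
  -- the homomorphism
  let f : ↥(Subgroup.closure S') →* Wr J A :=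
    { toFun := fun n => ⟨fun j => (h n).s j, 1⟩
      map_one' := by
        ext j
        · simp
        · rfl
      map_mul' := by
        rintro ⟨a, ha⟩ ⟨b, hb⟩
        ext j
        · show (h (a * b)).s j = (h a).s j * (h b).s j
          rw [map_mul, Wr.mul_s, (hN b (hclN hb)).1, Equiv.Perm.one_apply]
        · rfl }
  have hfs : ∀ (n : ↥(Subgroup.closure S')) (j : J), (f n).s j = (h n).s j := fun _ _ => rfl
  have hfp : ∀ n : ↥(Subgroup.closure S'), (f n).p = 1 := fun _ => rfl
  -- the permutation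
  let D : Set J := {x | (x : I) ∈ J0}
  let e : D → J := fun x => ⟨(h g).p x, hpJ x x.2⟩
  have he : Function.Injective e := by
    intro x y hxy
    have h1 : (h g).p x = (h g).p y := congrArg Subtype.val hxy
    exact Subtype.ext (Subtype.ext ((h g).p.injective h1))
  obtain ⟨σ, hσdef⟩ : ∃ σ : Equiv.Perm J, σ = (Equiv.ofInjective e he).extendSubtype := by
    have := Fintype.ofFinite J
    exact ⟨_, rfl⟩
  have hσ : ∀ (j : J) (hj : (j : I) ∈ J0), ((σ j : J) : I) = (h g).p j := by
    intro j hj
    have h1 : σ j = e ⟨j, hj⟩ := by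
      rw [hσdef]
      exact Equiv.extendSubtype_apply_of_mem (Equiv.ofInjective e he) j hj
    rw [h1]
  refine ⟨Wr J A, inferInstance, f, ⟨fun j => (h g).s j, σ⟩, hWR C hC.base J A hJF hA, ?_, ?_⟩
  · rw [injective_iff_map_eq_one]
    intro n hn
    have h1 : h n = 1 := by
      ext i
      · by_cases hi : i ∈ J
        · have h2 := congrArg (fun w : Wr J A => w.s ⟨i, hi⟩) hn
          exact h2
        · exact hsupp n n.2 i (fun h' => hi (hJ0J h'))
      · rw [(hN n (hclN n.2)).1]
        rfl
    have h2 : (n : G) = 1 := hinj n (hclN n.2) h1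
    exact Subtype.ext h2
  · intro x y hx hy
    have hxg : (y : G) * g = g * x := by
      rw [hy]
      group
    have hmul : h y * h g = h g * h x := by rw [← map_mul, ← map_mul, hxg]
    have hxN : (h x).p = 1 := (hN x (hclN x.2)).1
    have hid : ∀ i, (h y).s ((h g).p i) * (h g).s i = (h g).s i * (h x).s i := by
      intro i
      have h2 := congrArg (fun w : Wr I A => w.s i) hmul
      simp only [Wr.mul_s, hxN, Equiv.Perm.one_apply] at h2
      exact h2
    rw [eq_mul_inv_iff_mul_eq]
    ext j
    · show (h y).s (σ j) * (h g).s j = (h g).s j * (h x).s j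
      by_cases hj : (j : I) ∈ J0
      · rw [hσ j hj]
        exact hid j
      · have h3 : (h x).s j = 1 := hsupp x x.2 j hj
        have h4 : (h y).s (σ j) = 1 := by
          by_contra hc
          obtain ⟨i, hi⟩ := (h g).p.surjective (σ j : I)
          have h5 := hid i
          have h6 : (h x).s i ≠ 1 := by
            intro h7
            rw [h7, mul_one, hi] at h5
            exact hc (mul_eq_right.1 h5)
          have h8 : i ∈ J0 := by
            by_contra h9
            exact h6 (hsupp x x.2 i h9)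
          have h10 : σ ⟨i, hJ0J h8⟩ = σ j := by
            apply Subtype.ext
            rw [hσ _ h8]
            exact hi
          have h11 := σ.injective h10
          apply hj
          rw [← h11]
          exact h8
        rw [h3, h4, one_mul, mul_one]
    · show ((((1 : Equiv.Perm J) * σ) j : J) : I) = (((σ * (1 : Equiv.Perm J)) j : J) : I)
      rw [one_mul, mul_one]

end Pool.Agent.Y312.EI
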